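import Mathlib
import Pool.Agent.Helper2.WP54

set_option autoImplicit false

/-!
Proof of the supercongruence `S(p) ≡ p (mod p ^ 3)` for every prime `p ≡ 1 (mod 3)`.

Write `p = 3 n + 1`.  After clearing denominators the sum becomes the value at `s = 0` of an
integer polynomial `P(s)`.  A reflection `k ↦ n - k` shows that all coefficients of `P` are divisible
by `p`, so that `P(p ^ 2) ≡ P(0) (mod p ^ 3)`, and `P(p ^ 2)` is evaluated in closed form by a
terminating well-poised summation (`Pool.Agent.Helper2.WP54.special`).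
-/

namespace Pool.Agent.Results.MP_a7ff82_nt.FullSupercongruence

open Finset Polynomial

section ring

variable {R : Type*} [CommRing R]

/-- the summand with denominators cleared, in an arbitrary commutative ring -/
def T (s : R) (n k : ℕ) : R :=
  (6 * (k : R) + 1) * (∏ j ∈ range k, (3 * (j : R) + 1)) * (∏ j ∈ range k, (2 * (j : R) + 1)) *
    (∏ i ∈ range (n - k), ((n : R) - i)) * (∏ i ∈ range (n - k), (6 * ((n : R) - i) - 1)) *
    (∏ j ∈ range k, ((3 * (j : R) + 1) ^ 2 - s)) *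
    (∏ i ∈ range (n - k), (9 * ((n : R) - i) ^ 2 - s))

lemma map_T {R' : Type*} [CommRing R'] (φ : R →+* R') (s : R) (n k : ℕ) :
    φ (T s n k) = T (φ s) n k := by
  have h2 : φ 2 = 2 := map_ofNat φ 2
  have h3 : φ 3 = 3 := map_ofNat φ 3
  have h6 : φ 6 = 6 := map_ofNat φ 6
  have h9 : φ 9 = 9 := map_ofNat φ 9
  simp [T, map_prod, h2, h3, h6, h9]

lemma T_reflect (s : R) (n : ℕ) (h : 3 * (n : R) + 1 = 0) (k : ℕ) (hk : k ≤ n) :
    T s n (n - k) = - T s n k := by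
  have hA : ∀ m : ℕ, ∏ j ∈ range m, (3 * (j : R) + 1) = (-3) ^ m * ∏ i ∈ range m, ((n : R) - i) := by
    intro m
    rw [← card_range m, ← prod_const, card_range, ← prod_mul_distrib]
    refine prod_congr rfl fun j _ => ?_
    linear_combination h
  have hD : ∀ m : ℕ, ∏ i ∈ range m, (6 * ((n : R) - i) - 1) =
      (-3) ^ m * ∏ j ∈ range m, (2 * (j : R) + 1) := by
    intro m
    rw [← card_range m, ← prod_const, card_range, ← prod_mul_distrib]
    refine prod_congr rfl fun j _ => ?_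
    linear_combination 2 * h
  have hU : ∀ m : ℕ, ∏ j ∈ range m, ((3 * (j : R) + 1) ^ 2 - s) =
      ∏ i ∈ range m, (9 * ((n : R) - i) ^ 2 - s) := by
    intro m
    refine prod_congr rfl fun j _ => ?_
    linear_combination (6 * (j : R) - 3 * n + 1) * h
  have e : n - (n - k) = k := by omega
  have hc : ((n - k : ℕ) : R) = (n : R) - k := Nat.cast_sub hk
  unfold T
  rw [e, hA k, hA (n - k), hD k, hD (n - k), hU k, hU (n - k), hc]
  linear_combination (2 : R) * ((-3) ^ (n - k) * (-3) ^ k * (∏ i ∈ range k, ((n : R) - i)) *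
    (∏ i ∈ range (n - k), ((n : R) - i)) * (∏ j ∈ range k, (2 * (j : R) + 1)) *
    (∏ j ∈ range (n - k), (2 * (j : R) + 1)) * (∏ i ∈ range k, (9 * ((n : R) - i) ^ 2 - s)) *
    (∏ i ∈ range (n - k), (9 * ((n : R) - i) ^ 2 - s))) * h

lemma sum_T_eq_zero [NoZeroDivisors R] (h2 : (2 : R) ≠ 0) (s : R) (n : ℕ)
    (h : 3 * (n : R) + 1 = 0) : ∑ k ∈ range (n + 1), T s n k = 0 := by
  have h1 : ∑ k ∈ range (n + 1), T s n (n - k) = ∑ k ∈ range (n + 1), T s n k :=
    sum_flip (fun k => T s n k)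
  have h3 : ∑ k ∈ range (n + 1), T s n (n - k) = - ∑ k ∈ range (n + 1), T s n k := by
    rw [← sum_neg_distrib]
    refine sum_congr rfl fun k hk => ?_
    exact T_reflect s n h k (by have := mem_range.mp hk; omega)
  have h4 : (2 : R) * ∑ k ∈ range (n + 1), T s n k = 0 := by
    linear_combination h3 - h1
  rcases mul_eq_zero.mp h4 with h5 | h5
  · exact absurd h5 h2
  · exact h5

end ring

/-- reflecting a product -/
lemma prod_rev (g : ℚ → ℚ) (n k : ℕ) (hk : k ≤ n) :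
    (∏ i ∈ range (n - k), g ((n : ℚ) - i)) * ∏ j ∈ range k, g ((j : ℚ) + 1) =
      ∏ j ∈ range n, g ((j : ℚ) + 1) := by
  obtain ⟨d, rfl⟩ := Nat.exists_eq_add_of_le hk
  rw [Nat.add_sub_cancel_left]
  clear hk
  induction d with
  | zero => simp
  | succ d ih =>
    rw [prod_range_succ', ← add_assoc, prod_range_succ _ (k + d), ← ih]
    have : ∀ i : ℕ, (((k + d + 1 : ℕ) : ℚ) - ((i + 1 : ℕ) : ℚ)) = ((k + d : ℕ) : ℚ) - i := by
      intro i; push_cast; ring
    simp only [this]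
    have e2 : (((k + d + 1 : ℕ) : ℚ) - ((0 : ℕ) : ℚ)) = ((k + d : ℕ) : ℚ) + 1 := by
      push_cast; ring
    rw [e2]
    ring

/-- the summand as a multiple of a hypergeometric term -/
lemma T_eq (s : ℚ) (n k : ℕ) (hk : k ≤ n) (hs : ∀ j : ℕ, 9 * ((j : ℚ) + 1) ^ 2 - s ≠ 0) :
    T s n k = ((∏ j ∈ range n, ((j : ℚ) + 1)) * (∏ j ∈ range n, (6 * (j : ℚ) + 5)) *
      ∏ j ∈ range n, (9 * ((j : ℚ) + 1) ^ 2 - s)) * ((6 * (k : ℚ) + 1) *
      ∏ j ∈ range k, ((3 * (j : ℚ) + 1) * (2 * j + 1) * ((3 * j + 1) ^ 2 - s)) /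
        ((j + 1) * (6 * j + 5) * (9 * ((j : ℚ) + 1) ^ 2 - s))) := by
  have h1 := prod_rev (fun x => x) n k hk
  have h2 := prod_rev (fun x => 6 * x - 1) n k hk
  have h3 := prod_rev (fun x => 9 * x ^ 2 - s) n k hk
  have e5 : ∀ m : ℕ, ∏ j ∈ range m, (6 * ((j : ℚ) + 1) - 1) = ∏ j ∈ range m, (6 * (j : ℚ) + 5) := by
    intro m
    refine prod_congr rfl fun j _ => ?_
    ring
  rw [e5, e5] at h2
  have n1 : ∏ j ∈ range k, ((j : ℚ) + 1) ≠ 0 := prod_ne_zero_iff.mpr fun j _ => by positivity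
  have n2 : ∏ j ∈ range k, (6 * (j : ℚ) + 5) ≠ 0 := prod_ne_zero_iff.mpr fun j _ => by positivity
  have n3 : ∏ j ∈ range k, (9 * ((j : ℚ) + 1) ^ 2 - s) ≠ 0 :=
    prod_ne_zero_iff.mpr fun j _ => hs j
  rw [prod_div_distrib, prod_mul_distrib, prod_mul_distrib, prod_mul_distrib, prod_mul_distrib,
    ← h1, ← h2, ← h3]
  unfold T
  field_simp

/-- the summand of the problem in product form -/
lemma term_eq (k : ℕ) :
    ((ascPochhammer ℚ k).eval (1 / 3)) ^ 4 * (Nat.factorial (2 * k) : ℚ) /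
        ((Nat.factorial k : ℚ) ^ 4 * (ascPochhammer ℚ (2 * k)).eval (2 / 3)) =
      ∏ j ∈ range k, ((3 * (j : ℚ) + 1) * (2 * j + 1) * ((3 * j + 1) ^ 2 - 0)) /
        ((j + 1) * (6 * j + 5) * (9 * ((j : ℚ) + 1) ^ 2 - 0)) := by
  have hpos : ∀ m : ℕ, (ascPochhammer ℚ m).eval (2 / 3) ≠ 0 := fun m =>
    (ascPochhammer_pos m (2 / 3 : ℚ) (by norm_num)).ne'
  induction k with
  | zero => simp
  | succ k ih =>
    rw [prod_range_succ, ← ih]
    have e : 2 * (k + 1) = 2 * k + 1 + 1 := by ring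
    rw [e, Nat.factorial_succ (2 * k + 1), Nat.factorial_succ (2 * k), Nat.factorial_succ k,
      ascPochhammer_succ_eval, ascPochhammer_succ_eval, ascPochhammer_succ_eval]
    have h1 : (Nat.factorial k : ℚ) ≠ 0 := by positivity
    have h2 := hpos (2 * k)
    have h3 : ((2 : ℚ) / 3 + ((2 * k : ℕ) : ℚ)) ≠ 0 := by positivity
    have h4 : ((2 : ℚ) / 3 + ((2 * k + 1 : ℕ) : ℚ)) ≠ 0 := by positivity
    have h5 : ((2 : ℚ) / 3 + 2 * (k : ℚ)) ≠ 0 := by positivity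
    have h6 : ((2 : ℚ) / 3 + (2 * (k : ℚ) + 1)) ≠ 0 := by positivity
    have h7 : (6 * (k : ℚ) + 5) ≠ 0 := by positivity
    have h8 : ((k : ℚ) + 1) ≠ 0 := by positivity
    push_cast
    rw [sub_zero, sub_zero]
    generalize (ascPochhammer ℚ k).eval (1 / 3) = a
    generalize hb : (ascPochhammer ℚ (2 * k)).eval (2 / 3) = b at h2
    generalize (Nat.factorial (2 * k) : ℚ) = c
    generalize (Nat.factorial k : ℚ) = d at h1
    field_simp
    ring

theorem result :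
    ∀ p : ℕ, p.Prime → p % 3 = 1 →
      ∃ x : ℚ, ¬ (p ∣ x.den) ∧
        (∑ k ∈ Finset.range ((p - 1) / 3 + 1),
          (6 * (k : ℚ) + 1) *
            (((ascPochhammer ℚ k).eval (1 / 3)) ^ 4 * (Nat.factorial (2 * k) : ℚ) /
              ((Nat.factorial k : ℚ) ^ 4 * (ascPochhammer ℚ (2 * k)).eval (2 / 3)))) - (p : ℚ) =
          (p : ℚ) ^ 3 * x := by
  intro p hp hp3
  obtain ⟨n, rfl⟩ : ∃ n : ℕ, p = 3 * n + 1 := ⟨p / 3, by omega⟩
  have hn : (3 * n + 1 - 1) / 3 = n := by omega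
  rw [hn]
  have : Fact (3 * n + 1).Prime := ⟨hp⟩
  have hp2 : 3 * n + 1 ≠ 2 := by omega
  -- the polynomial
  set P : ℤ[X] := ∑ k ∈ range (n + 1), T (X : ℤ[X]) n k with hP
  have hPmap : P.map (Int.castRingHom (ZMod (3 * n + 1))) = 0 := by
    rw [← coe_mapRingHom, hP, map_sum]
    simp only [map_T]
    apply sum_T_eq_zero
    · intro h
      have h' : ((2 : ℕ) : (ZMod (3 * n + 1))[X]) = 0 := by exact_mod_cast h
      rw [CharP.cast_eq_zero_iff (ZMod (3 * n + 1))[X] (3 * n + 1)] at h'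
      have := (Nat.prime_dvd_prime_iff_eq hp Nat.prime_two).mp h'
      exact hp2 this
    · have h' : ((3 * n + 1 : ℕ) : (ZMod (3 * n + 1))[X]) = 0 :=
        CharP.cast_eq_zero _ (3 * n + 1)
      push_cast at h'
      exact h'
  obtain ⟨Q, hQ⟩ : C ((3 * n + 1 : ℕ) : ℤ) ∣ P := by
    rw [C_dvd_iff_dvd_coeff]
    intro i
    have h := congrArg (fun q => coeff q i) hPmap
    simp only [coeff_map, coeff_zero, eq_intCast] at h
    exact (ZMod.intCast_zmod_eq_zero_iff_dvd _ _).mp h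
  have hPeval : ∀ s : ℤ, P.eval s = ∑ k ∈ range (n + 1), T s n k := by
    intro s
    rw [← coe_evalRingHom, hP, map_sum]
    simp only [map_T]
    simp
  -- congruence modulo p ^ 3
  obtain ⟨z, hz⟩ : ((3 * n + 1 : ℕ) : ℤ) ^ 3 ∣
      P.eval 0 - P.eval (((3 * n + 1 : ℕ) : ℤ) ^ 2) := by
    rw [hQ, eval_mul, eval_mul, eval_C, eval_C, ← mul_sub, pow_succ']
    apply mul_dvd_mul_left
    have h := sub_dvd_eval_sub (0 : ℤ) (((3 * n + 1 : ℕ) : ℤ) ^ 2) Q
    rw [zero_sub, neg_dvd] at h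
    exact h
  set E : ℤ := (∏ j ∈ range n, ((j : ℤ) + 1)) * (∏ j ∈ range n, (6 * (j : ℤ) + 5)) with hE
  set Dp : ℤ[X] := ∏ j ∈ range n, (9 * ((j : ℤ[X]) + 1) ^ 2 - X) with hDp
  have hDeval : ∀ s : ℤ, Dp.eval s = ∏ j ∈ range n, (9 * ((j : ℤ) + 1) ^ 2 - s) := by
    intro s
    rw [hDp, eval_prod]
    refine prod_congr rfl fun j _ => ?_
    simp
  obtain ⟨w, hw⟩ : ((3 * n + 1 : ℕ) : ℤ) ^ 2 ∣
      Dp.eval 0 - Dp.eval (((3 * n + 1 : ℕ) : ℤ) ^ 2) := by
    have h := sub_dvd_eval_sub (0 : ℤ) (((3 * n + 1 : ℕ) : ℤ) ^ 2) Dp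
    rw [zero_sub, neg_dvd] at h
    exact h
  -- evaluation at p ^ 2
  have hval : ((P.eval (((3 * n + 1 : ℕ) : ℤ) ^ 2) : ℤ) : ℚ) =
      (E : ℚ) * ((Dp.eval (((3 * n + 1 : ℕ) : ℤ) ^ 2) : ℤ) : ℚ) * (3 * n + 1) := by
    have hs : ∀ j : ℕ, 9 * ((j : ℚ) + 1) ^ 2 - (3 * (n : ℚ) + 1) ^ 2 ≠ 0 := by
      intro j h
      have h' : (9 * ((j : ℤ) + 1) ^ 2 - (3 * (n : ℤ) + 1) ^ 2 : ℤ) = 0 := by exact_mod_cast h
      have h'' : (3 * ((j : ℤ) + 1) - (3 * n + 1)) * (3 * ((j : ℤ) + 1) + (3 * n + 1)) = 0 := by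
        linear_combination h'
      rcases mul_eq_zero.mp h'' with h3 | h3 <;> omega
    rw [hPeval, hDeval, Int.cast_sum]
    have e : ∀ k ∈ range (n + 1), ((T (((3 * n + 1 : ℕ) : ℤ) ^ 2) n k : ℤ) : ℚ) =
        (E * ∏ j ∈ range n, (9 * ((j : ℤ) + 1) ^ 2 - ((3 * n + 1 : ℕ) : ℤ) ^ 2) : ℤ) *
          ((6 * (k : ℚ) + 1) * ∏ j ∈ range k,
            ((3 * (j : ℚ) + 1) * (2 * j + 1) * ((3 * j + 1) ^ 2 - (3 * n + 1) ^ 2)) /
            ((j + 1) * (6 * j + 5) * (9 * ((j : ℚ) + 1) ^ 2 - (3 * n + 1) ^ 2))) := by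
      intro k hk
      have h1 : ((T (((3 * n + 1 : ℕ) : ℤ) ^ 2) n k : ℤ) : ℚ) = T ((3 * (n : ℚ) + 1) ^ 2) n k := by
        have := map_T (Int.castRingHom ℚ) (((3 * n + 1 : ℕ) : ℤ) ^ 2) n k
        simp only [eq_intCast] at this
        rw [this]
        push_cast
        rfl
      rw [h1, T_eq _ n k (by have := mem_range.mp hk; omega) hs, hE]
      push_cast
      rfl
    rw [sum_congr rfl e, ← mul_sum, Pool.Agent.Helper2.WP54.special n]
    push_cast
    ring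
  -- evaluation at 0
  have hval0 : ((P.eval 0 : ℤ) : ℚ) = (E : ℚ) * ((Dp.eval 0 : ℤ) : ℚ) *
      ∑ k ∈ Finset.range (n + 1),
          (6 * (k : ℚ) + 1) *
            (((ascPochhammer ℚ k).eval (1 / 3)) ^ 4 * (Nat.factorial (2 * k) : ℚ) /
              ((Nat.factorial k : ℚ) ^ 4 * (ascPochhammer ℚ (2 * k)).eval (2 / 3))) := by
    have hs : ∀ j : ℕ, 9 * ((j : ℚ) + 1) ^ 2 - 0 ≠ 0 := by
      intro j
      rw [sub_zero]
      positivity
    rw [hPeval, hDeval, Int.cast_sum, mul_sum]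
    refine sum_congr rfl fun k hk => ?_
    rw [term_eq]
    have h1 : ((T (0 : ℤ) n k : ℤ) : ℚ) = T (0 : ℚ) n k := by
      have := map_T (Int.castRingHom ℚ) (0 : ℤ) n k
      simp only [eq_intCast, Int.cast_zero] at this
      exact this
    rw [h1, T_eq _ n k (by have := mem_range.mp hk; omega) hs, hE]
    push_cast
    rfl
  -- the denominator is prime to p
  have hnd : ¬ (((3 * n + 1 : ℕ) : ℤ) ∣ E * Dp.eval 0) := by
    have hpZ : Prime (((3 * n + 1 : ℕ) : ℤ)) := Nat.prime_iff_prime_int.mp hp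
    intro h
    rcases hpZ.dvd_or_dvd h with h | h
    · rw [hE] at h
      rcases hpZ.dvd_or_dvd h with h | h
      · obtain ⟨j, hj, hd⟩ := (hpZ.dvd_finsetProd_iff _).mp h
        have hj' := mem_range.mp hj
        have := Int.le_of_dvd (by positivity) hd
        push_cast at this
        omega
      · obtain ⟨j, hj, hd⟩ := (hpZ.dvd_finsetProd_iff _).mp h
        have hj' := mem_range.mp hj
        obtain ⟨c, hc⟩ := hd
        push_cast at hc
        have hc1 : 0 < c := by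
          by_contra hcon
          push Not at hcon
          nlinarith
        have hc2 : c < 2 := by
          by_contra hcon
          push Not at hcon
          nlinarith
        have : c = 1 := by omega
        subst this
        omega
    · rw [hDeval] at h
      obtain ⟨j, hj, hd⟩ := (hpZ.dvd_finsetProd_iff _).mp h
      have hj' := mem_range.mp hj
      rw [sub_zero] at hd
      rcases hpZ.dvd_or_dvd hd with h | h
      · have h9 : ((3 * n + 1 : ℕ) : ℤ) ∣ 3 ^ 2 := by norm_num; exact h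
        have h3 := hpZ.dvd_of_dvd_pow h9
        have := Int.le_of_dvd (by norm_num) h3
        have hn0 : 1 < 3 * n + 1 := hp.one_lt
        push_cast at this
        omega
      · have h3 := hpZ.dvd_of_dvd_pow h
        have := Int.le_of_dvd (by positivity) h3
        push_cast at this
        omega
  have hED : ((E * Dp.eval 0 : ℤ) : ℚ) ≠ 0 := by
    intro h
    apply hnd
    have : E * Dp.eval 0 = 0 := by exact_mod_cast h
    rw [this]
    exact dvd_zero _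
  refine ⟨((z - E * w : ℤ) : ℚ) / ((E * Dp.eval 0 : ℤ) : ℚ), ?_, ?_⟩
  · intro h
    apply hnd
    have h1 := Rat.den_dvd (z - E * w) (E * Dp.eval 0)
    rw [Rat.divInt_eq_div] at h1
    have h2 : ((3 * n + 1 : ℕ) : ℤ) ∣
        ((((z - E * w : ℤ) : ℚ) / ((E * Dp.eval 0 : ℤ) : ℚ)).den : ℤ) := by exact_mod_cast h
    exact h2.trans h1
  · rw [← mul_div_assoc, eq_div_iff hED]
    have hzQ : ((P.eval 0 : ℤ) : ℚ) - ((P.eval (((3 * n + 1 : ℕ) : ℤ) ^ 2) : ℤ) : ℚ) =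
        ((3 * n + 1 : ℕ) : ℚ) ^ 3 * (z : ℚ) := by
      exact_mod_cast congrArg (Int.cast : ℤ → ℚ) hz
    have hwQ : ((Dp.eval 0 : ℤ) : ℚ) - ((Dp.eval (((3 * n + 1 : ℕ) : ℤ) ^ 2) : ℤ) : ℚ) =
        ((3 * n + 1 : ℕ) : ℚ) ^ 2 * (w : ℚ) := by
      exact_mod_cast congrArg (Int.cast : ℤ → ℚ) hw
    rw [hval, hval0] at hzQ
    push_cast at hzQ hwQ ⊢
    linear_combination hzQ - (E : ℚ) * (3 * n + 1) * hwQ

end Pool.Agent.Results.MP_a7ff82_nt.FullSupercongruence
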